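import Pool.Agent.Helper27.BG.St2
import Pool.Agent.Helper90.MT.SWa

/-!
# Project BG: module SWS (constant in the squarefree sum)
-/

set_option autoImplicit false

noncomputable section

namespace Pool.Agent.Helper27.BG

open Finset MeasureTheory
open Pool.Agent.Helper90.MT (DD piDD SW swg swS sw_bound swg_tsum_le one_le_swg_tsum swg_nonneg
  swg_le swg_zero swg_one swg_summable)

private theorem tail_SWS (w : ℕ) (hw : 1 ≤ w) (m : ℕ) :
    ∑ i ∈ range m, 1 / (((w + 1 + i : ℕ) : ℝ)) ^ 2 ≤ 1 / (w : ℝ) - 1 / ((w : ℝ) + m) := by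
  have hw' : (1 : ℝ) ≤ w := by exact_mod_cast hw
  induction m with
  | zero => simp
  | succ m ih =>
    rw [Finset.sum_range_succ]
    have h1 : 1 / (((w + 1 + m : ℕ) : ℝ)) ^ 2 ≤ 1 / ((w : ℝ) + m) - 1 / ((w : ℝ) + (m + 1 : ℕ)) := by
      have e : ((w + 1 + m : ℕ) : ℝ) = (w : ℝ) + m + 1 := by push_cast; ring
      have e2 : (w : ℝ) + (m + 1 : ℕ) = (w : ℝ) + m + 1 := by push_cast; ring
      rw [e, e2]
      have hp : (0 : ℝ) < (w : ℝ) + m := by positivity
      rw [div_sub_div _ _ (by positivity) (by positivity), div_le_div_iff₀ (by positivity)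
        (by positivity)]
      nlinarith
    linarith

private theorem zero_SWS (w W e : ℕ) (hD : Dv w W) (h2 : 2 ≤ e) (he : e ≤ w) : swg W e = 0 := by
  unfold Pool.Agent.Helper90.MT.swg
  rw [if_neg]
  intro hc
  have hp := Nat.minFac_prime (n := e) (by omega)
  have h1 : e.minFac ∣ W := hD.2 _ hp ((Nat.minFac_le (by omega)).trans he)
  have h3 := Nat.dvd_gcd (Nat.minFac_dvd e) h1
  rw [hc.gcd_eq_one] at h3
  exact hp.one_lt.ne' (Nat.dvd_one.mp h3)

private theorem first_SWS (w W : ℕ) (hw : 1 ≤ w) (hD : Dv w W) :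
    ∑ i ∈ range (w + 1), swg W i = 1 := by
  rw [Finset.sum_eq_single 1]
  · exact swg_one W
  · intro e he hne
    rw [Finset.mem_range] at he
    rcases Nat.eq_zero_or_pos e with h | h
    · rw [h, swg_zero]
    · exact zero_SWS w W e hD (by omega) (by omega)
  · intro h
    exact absurd (Finset.mem_range.mpr (by omega)) h

private theorem tsum_SWS (w W : ℕ) (hw : 1 ≤ w) (hD : Dv w W) :
    ∑' e, swg W e ≤ 1 + 1 / (w : ℝ) := by
  apply Real.tsum_le_of_sum_range_le (swg_nonneg W)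
  intro n
  have h1 : ∑ i ∈ range n, swg W i ≤ ∑ i ∈ range (w + 1 + n), swg W i :=
    Finset.sum_le_sum_of_subset_of_nonneg (Finset.range_mono (by omega))
      fun _ _ _ => swg_nonneg W _
  have h2 : ∑ i ∈ range (w + 1 + n), swg W i =
      ∑ i ∈ range (w + 1), swg W i + ∑ i ∈ range n, swg W (w + 1 + i) :=
    Finset.sum_range_add _ _ _
  have h3 : ∑ i ∈ range n, swg W (w + 1 + i) ≤ ∑ i ∈ range n, 1 / (((w + 1 + i : ℕ) : ℝ)) ^ 2 :=
    Finset.sum_le_sum fun _ _ => swg_le W _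
  have h4 := tail_SWS w hw n
  have h5 := first_SWS w W hw hD
  have h6 : 0 ≤ 1 / ((w : ℝ) + n) := by positivity
  linarith

/-- SWS. -/
theorem hSWs : StSWs := by
  classical
  intro W hW
  obtain ⟨C, hC0, hC⟩ := sw_bound W hW
  obtain ⟨Z, hZ⟩ : ∃ Z : ℝ, Z = ∑' e, swg W e := ⟨_, rfl⟩
  have hZ1 : 1 ≤ Z := by rw [hZ]; exact one_le_swg_tsum W
  rw [← hZ] at hC
  have hW' : (0 : ℝ) < W := by exact_mod_cast hW
  have hφ : (0 : ℝ) < W.totient := by exact_mod_cast Nat.totient_pos.2 hW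
  obtain ⟨k, hk⟩ : ∃ k : ℝ, k = (W.totient : ℝ) / W := ⟨_, rfl⟩
  have hk0 : 0 < k := by rw [hk]; positivity
  rw [← hk] at hC ⊢
  have hc0 : 0 < k / Z := by positivity
  refine ⟨k / Z, C + k / Z * Real.log 2, hc0, ?_, ?_, ?_⟩
  · exact div_le_self hk0.le hZ1
  · intro w hw hD
    have h1 := tsum_SWS w W hw hD
    rw [← hZ] at h1
    have hw' : (1 : ℝ) ≤ w := by exact_mod_cast hw
    rw [le_div_iff₀ (by linarith)]
    have h2 : (1 - 2 / (w : ℝ)) * Z ≤ 1 := by
      have hu : 0 < 1 / (w : ℝ) := by positivity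
      have e : (2 : ℝ) / w = 2 * (1 / w) := by ring
      rw [e]
      rcases le_total 0 (1 - 2 * (1 / (w : ℝ))) with h | h
      · nlinarith
      · nlinarith
    calc (1 - 2 / (w : ℝ)) * k * Z = ((1 - 2 / (w : ℝ)) * Z) * k := by ring
      _ ≤ 1 * k := mul_le_mul_of_nonneg_right h2 hk0.le
      _ = k := one_mul k
  · intro z hz
    have hn : 1 ≤ ⌊z⌋₊ := (Nat.one_le_floor_iff z).2 hz
    have h1 : SW W z = swS W ⌊z⌋₊ := by
      unfold Pool.Agent.Helper90.MT.SW Pool.Agent.Helper90.MT.swS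
      rw [Finset.sum_filter]
    have h2 := hC _ hn
    have hn' : (0 : ℝ) < (⌊z⌋₊ : ℝ) := by exact_mod_cast hn
    have h3 : Real.log (⌊z⌋₊ : ℝ) ≤ Real.log z :=
      Real.log_le_log hn' (Nat.floor_le (by linarith))
    have h4 : Real.log z ≤ Real.log (⌊z⌋₊ : ℝ) + Real.log 2 := by
      rw [← Real.log_mul (by positivity) (by norm_num)]
      apply Real.log_le_log (by linarith)
      have h5 := Nat.lt_floor_add_one z
      have h6 : (1 : ℝ) ≤ (⌊z⌋₊ : ℝ) := by exact_mod_cast hn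
      linarith
    rw [h1]
    have h5 : swS W ⌊z⌋₊ - k / Z * Real.log z = (swS W ⌊z⌋₊ - k / Z * Real.log (⌊z⌋₊ : ℝ)) -
        k / Z * (Real.log z - Real.log (⌊z⌋₊ : ℝ)) := by ring
    rw [h5]
    have h6 : |k / Z * (Real.log z - Real.log (⌊z⌋₊ : ℝ))| ≤ k / Z * Real.log 2 := by
      rw [abs_of_nonneg (mul_nonneg hc0.le (by linarith))]
      exact mul_le_mul_of_nonneg_left (by linarith) hc0.le
    calc _ ≤ |swS W ⌊z⌋₊ - k / Z * Real.log (⌊z⌋₊ : ℝ)| +
          |k / Z * (Real.log z - Real.log (⌊z⌋₊ : ℝ))| := abs_sub _ _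
      _ ≤ _ := add_le_add h2 h6

end Pool.Agent.Helper27.BG
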